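import Pool.Agent.H14.Gw2

namespace Pool.Agent.Results.MP_c4ae4c_al.Words
open Pool.Agent.H14.Gw

/-- w(x,y): substitute x for the first generator and y for the second -/
def wop {G : Type} [Group G] (w : FreeGroup (Fin 2)) (x y : G) : G := FreeGroup.lift ![x, y] w

/-- the binary operation m makes X a group -/
def IsGroupLaw {X : Type} (m : X → X → X) : Prop :=
  (∀ x y z, m (m x y) z = m x (m y z)) ∧
    ∃ e, (∀ x, m e x = x ∧ m x e = x) ∧ ∀ x, ∃ y, m y x = e ∧ m x y = e

/-- property (N); the k-th term of the lower central series has index k - 1 in Mathlib -/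
def PropN (w : FreeGroup (Fin 2)) : Prop :=
  ∀ n, 2 ≤ n → ∀ k, 1 ≤ k → IsGroupLaw fun x y :
    FreeGroup (Fin n) ⧸ (⊤ : Subgroup (FreeGroup (Fin n))).lowerCentralSeries (k - 1) => wop w x y

lemma unit_one {G : Type} [Group G] (w : FreeGroup (Fin 2))
    (h : IsGroupLaw fun x y : G => wop w x y) (x : G) : wop w 1 x = x ∧ wop w x 1 = x := by
  obtain ⟨ha, e, he, hi⟩ := h
  have h11 : wop w (1 : G) 1 = 1 := by
    have := map_lift2 (1 : G →* G) 1 1 w
    simpa [wop] using this.symm
  obtain ⟨y, hy, -⟩ := hi 1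
  have := ha y 1 1
  simp only at this hy he
  rw [hy, h11, hy, (he 1).1] at this
  rw [this]
  exact he x

lemma eq_of_quot {a b : FreeGroup (Fin 3)}
    (h : ∀ k, (QuotientGroup.mk' ((⊤ : Subgroup (FreeGroup (Fin 3))).lowerCentralSeries k)) a =
      QuotientGroup.mk' _ b) : a = b := by
  have : a⁻¹ * b = 1 := magnus _ fun k => QuotientGroup.eq.1 (h k)
  exact inv_mul_eq_one.1 this

theorem result (w : FreeGroup (Fin 2)) :
    PropN w ↔ w = FreeGroup.of 0 * FreeGroup.of 1 ∨ w = FreeGroup.of 1 * FreeGroup.of 0 := by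
  constructor
  · intro h
    have H := fun k => h 3 (by norm_num) (k + 1) (by omega)
    apply core
    · apply eq_of_quot
      intro k
      rw [map_lift2, map_lift2, map_lift2, map_lift2]
      exact (H k).1 _ _ _
    · apply eq_of_quot
      intro k
      rw [map_lift2, map_one]
      exact (unit_one w (H k) _).2
    · apply eq_of_quot
      intro k
      rw [map_lift2, map_one]
      exact (unit_one w (H k) _).1
  · rintro (rfl | rfl) n _ k _
    · refine ⟨fun x y z => by simp [wop, mul_assoc], 1, fun x => by simp [wop],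
        fun x => ⟨x⁻¹, by simp [wop]⟩⟩
    · refine ⟨fun x y z => by simp [wop, mul_assoc], 1, fun x => by simp [wop],
        fun x => ⟨x⁻¹, by simp [wop]⟩⟩

end Pool.Agent.Results.MP_c4ae4c_al.Words
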